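import Pool.Agent.XDT.Thm

/-!
# Constant depth tests for `k`-SAT with two-sided error have exponential size

A test is a polynomial `f` in variables `x_C`, one for every clause `C` with `k` literals. It accepts
a formula `φ` if `f` with `x_C = 0` for all clauses `C` of `φ` is a nonzero polynomial (a randomised
algorithm finds this out by evaluating `f` at random values). The coefficients lie in any field
`F`, for instance a field of rational functions in further variables. The test is computed by an
arithmetic circuit of constant depth: sums and products of any number of earlier results, and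
arbitrary polynomials of `w` earlier results.
-/

set_option autoImplicit false

open scoped BigOperators

namespace Pool.Agent.Results.MP_b6562f_lc.TwoSidedErrorTests

open MvPolynomial

/-- A clause with exactly `k` literals, on `k` different variables among `n` Boolean variables. The
literal `(i, s)` is true if the variable `i` has the value `s`. -/
abbrev Clause (n k : ℕ) : Type :=
  {C : Finset (Fin n × Bool) // C.card = k ∧ ∀ i, ¬ ((i, true) ∈ C ∧ (i, false) ∈ C)}

/-- The assignment `a` satisfies the formula `φ` (a conjunction of clauses). -/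
def Satisfies {n k : ℕ} (a : Fin n → Bool) (φ : Finset (Clause n k)) : Prop :=
  ∀ C ∈ φ, ∃ p ∈ C.1, a p.1 = p.2

/-- The polynomial `f` with `x_C` replaced by `0` for all clauses `C` of `φ`. -/
noncomputable def onFormula {n k : ℕ} {F : Type} [Field F] (φ : Finset (Clause n k))
    (f : MvPolynomial (Clause n k) F) : MvPolynomial (Clause n k) F :=
  aeval (fun C => if C ∈ φ then 0 else X C) f

/-- `P 0, ..., P (s - 1)` are the polynomials at the `s` gates of an arithmetic circuit over the
field `F` with at most `d` product gates and arbitrary gates on each path. Every gate is a sum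
gate: a linear combination of the constant `1`, of the variables and of earlier gates; or a product
gate: a constant times a product of powers of variables and of earlier gates; or an arbitrary gate:
any polynomial, of any degree and any complexity, in `w` earlier gates. -/
def IsCircuit {V F : Type} [Fintype V] [Field F] (d w : ℕ) {s : ℕ}
    (P : Fin s → MvPolynomial V F) : Prop :=
  ∃ depth : Fin s → ℕ, ∀ g, depth g ≤ d ∧
    ((∃ (a₀ : F) (a : V → F) (c : Fin s → F), (∀ h, c h ≠ 0 → h < g ∧ depth h ≤ depth g) ∧
        P g = C a₀ + ∑ v, C (a v) * X v + ∑ h, C (c h) * P h) ∨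
     (∃ (a₀ : F) (a : V → ℕ) (e : Fin s → ℕ), 0 < depth g ∧
        (∀ h, e h ≠ 0 → h < g ∧ depth h < depth g) ∧
        P g = C a₀ * (∏ v, X v ^ a v) * ∏ h, P h ^ e h) ∨
     (∃ (t : Fin w → Fin s) (Q : MvPolynomial (Fin w) F), 0 < depth g ∧
        (∀ i, t i < g ∧ depth (t i) < depth g) ∧ P g = aeval (fun i => P (t i)) Q))

/-- `f` is computed by a circuit with `s` gates and at most `d` product gates and arbitrary gates
on each path. -/
def Computed {V F : Type} [Fintype V] [Field F] (d w s : ℕ) (f : MvPolynomial V F) : Prop :=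
  ∃ P : Fin s → MvPolynomial V F, IsCircuit d w P ∧ ∃ g, P g = f

open Classical in
/-- The formula of all clauses which are true at the assignment `x`. -/
noncomputable def trueClauses {n : ℕ} (k : ℕ) (x : Fin n → Bool) : Finset (Clause n k) :=
  Finset.univ.filter fun C => ∃ p ∈ C.1, x p.1 = p.2

open Classical in
/-- **Theorem.** For every `k ≥ 3` there is `c > 0` such that the following holds for every `d ≥ 1`
and every field. Let `f` be a random test for `k`-SAT which accepts each unsatisfiable formula with
probability at most `b`, and the formula of all clauses which are true at `x`, for a uniformly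
random assignment `x`, with probability at least `a`, where `b q ≤ a` for a real number `q ≥ 0`.
Let `B = n.choose k`, the number of clauses which are false at an assignment. Let `f` always be of
total degree at most `B + B / q`, or have in each monomial at most `B / q` variables with an exponent
larger than one; and let `f` always be computed by a circuit with `s` gates and at most `d` product
gates and arbitrary gates of fan-in `w` on each path. Let `φ = fib (2 d + 2)`. Then
`(2 n) ^ w (s + n) ≥ a exp (c min (n ^ (k / ((k + 2) φ - k - 3)), q ^ (k / (k φ - 2 k + 1))))`.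
If `b = 0` and `f` is multilinear or of degree at most `B`, one can take any `q`, and the minimum is
the power of `n`. -/
theorem result : ∀ k : ℕ, 3 ≤ k → ∃ c : ℝ, 0 < c ∧
    ∀ d : ℕ, 1 ≤ d → ∀ (F : Type) [Field F] (Ω : Type) [Fintype Ω] (n s w : ℕ) (a b q : ℝ)
      (p : Ω → ℝ) (f : Ω → MvPolynomial (Clause n k) F),
    1 ≤ n → 1 ≤ w → 0 ≤ q → b * q ≤ a → (∀ ω, 0 ≤ p ω) → ∑ ω, p ω = 1 →
    (∀ ω, Computed d w s (f ω)) →
    (∀ ω, q * ((f ω).totalDegree - n.choose k) ≤ n.choose k ∨
      ∀ ν ∈ (f ω).support, q * (Finset.univ.filter fun C => 2 ≤ ν C).card ≤ n.choose k) →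
    (∀ φ, (¬ ∃ x, Satisfies x φ) → ∑ ω, (if onFormula φ (f ω) ≠ 0 then p ω else 0) ≤ b) →
    (a * 2 ^ n ≤ ∑ x : Fin n → Bool, ∑ ω, if onFormula (trueClauses k x) (f ω) ≠ 0
      then p ω else 0) →
    a * Real.exp (c * min
      ((n : ℝ) ^ ((k : ℝ) / (((k : ℝ) + 2) * (Nat.fib (2 * d + 2) : ℝ) - (k : ℝ) - 3)))
      (q ^ ((k : ℝ) / ((k : ℝ) * (Nat.fib (2 * d + 2) : ℝ) - 2 * (k : ℝ) + 1)))) ≤
      (2 * n : ℝ) ^ w * (s + n) := by
  intro k hk
  obtain ⟨j, rfl⟩ : ∃ j, k = j + 1 := ⟨k - 1, by omega⟩
  obtain ⟨c, hc, H⟩ := Pool.XDT.xdt_circ j (by omega)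
  refine ⟨c, hc, ?_⟩
  intro d hd F _ Ω _ n s w a b q p f hn hw hq hb hp hp1 hf hml hno hyes
  obtain ⟨l, rfl⟩ : ∃ l, d = l + 1 := ⟨d - 1, by omega⟩
  rcases le_or_gt a 0 with ha | ha
  · refine (mul_nonpos_of_nonpos_of_nonneg ha (Real.exp_pos _).le).trans ?_
    positivity
  have hne : Nonempty Ω := by
    by_contra hcon
    rw [not_nonempty_iff] at hcon
    rw [Fintype.sum_empty] at hp1
    exact zero_ne_one hp1
  have ha1 : a ≤ 1 := by
    have h1 : ∀ x : Fin n → Bool, (∑ ω, if onFormula (trueClauses (j + 1) x) (f ω) ≠ 0
        then p ω else 0) ≤ 1 := by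
      intro x
      rw [← hp1]
      refine Finset.sum_le_sum fun ω _ => ?_
      split_ifs
      · exact le_rfl
      · exact hp ω
    have h2 : a * 2 ^ n ≤ 1 * 2 ^ n := by
      refine (hyes.trans (Finset.sum_le_sum fun x _ => h1 x)).trans (le_of_eq ?_)
      simp
    exact le_of_mul_le_mul_right h2 (by positivity)
  obtain ⟨ω⟩ := hne
  have hs : 1 ≤ s := by
    obtain ⟨P, -, g, -⟩ := hf ω
    have := g.2
    omega
  have e1 : ∀ (x : Fin n → Bool) (g : MvPolynomial (Clause n (j + 1)) F),
      onFormula (trueClauses (j + 1) x) g = Pool.Agent.Helper59.CDT.onF (Pool.XDT.tru x) g := by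
    intro x g
    have e2 : trueClauses (j + 1) x = Pool.XDT.tru x := by
      ext C
      refine Iff.trans ?_ Pool.XDT.mem_tru.symm
      rw [trueClauses, Finset.mem_filter]
      exact ⟨fun h => h.2, fun h => ⟨Finset.mem_univ _, h⟩⟩
    rw [e2]
    rfl
  have hyes' : a * 2 ^ n ≤ ∑ x : Fin n → Bool, ∑ ω,
      if Pool.Agent.Helper59.CDT.onF (Pool.XDT.tru x) (f ω) ≠ 0 then p ω else 0 := by
    refine hyes.trans (le_of_eq (Finset.sum_congr rfl fun x _ => Finset.sum_congr rfl fun ω _ => ?_))
    have e3 := e1 x (f ω)
    by_cases h : onFormula (trueClauses (j + 1) x) (f ω) ≠ 0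
    · rw [if_pos h, if_pos (by rw [← e3]; exact h)]
    · rw [if_neg h, if_neg (by rw [← e3]; exact h)]
  exact H F Ω l n s w a b q p f hn hs hw ha ha1 hq hb hp hp1 hf (fun ω => (hml ω).symm) hno hyes'

end Pool.Agent.Results.MP_b6562f_lc.TwoSidedErrorTests
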